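import Mathlib

/-!
Klee type transfinite construction in `C(K)` for the Cantor cube `K = ℝ → Bool` of weight
continuum: the space is covered by pairwise disjoint closed unit balls.
-/

set_option autoImplicit false

namespace Pool.Agent.P.MP_bf1b21_an

open Cardinal Set Filter Topology

/-- The Cantor cube of weight continuum. -/
abbrev Cube : Type := ℝ → Bool

/-- The sign of the coordinate `γ`. -/
noncomputable def sgn (γ : ℝ) : C(Cube, ℝ) :=
  ⟨fun t => if t γ = true then 1 else -1,
    (continuous_of_discreteTopology (f := fun b : Bool => if b = true then (1 : ℝ) else -1)).comp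
      (continuous_apply γ)⟩

lemma sgn_apply (γ : ℝ) (t : Cube) : sgn γ t = if t γ = true then 1 else -1 := rfl

lemma norm_sgn_le (γ : ℝ) : ‖sgn γ‖ ≤ 1 := by
  rw [ContinuousMap.norm_le _ zero_le_one]
  intro t
  rw [sgn_apply]
  split_ifs <;> simp

/-- `h` does not depend on the coordinate `γ`. -/
def Indep (h : C(Cube, ℝ)) (γ : ℝ) : Prop :=
  ∀ (t : Cube) (b : Bool), h (Function.update t γ b) = h t

lemma norm_add_sgn {h : C(Cube, ℝ)} {γ : ℝ} (H : Indep h γ) : ‖h‖ + 1 ≤ ‖h + sgn γ‖ := by
  have : ‖h‖ ≤ ‖h + sgn γ‖ - 1 := by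
    rw [ContinuousMap.norm_le_of_nonempty]
    intro t
    by_cases ht : 0 ≤ h t
    · have h1 := (h + sgn γ).norm_coe_le_norm (Function.update t γ true)
      rw [ContinuousMap.add_apply, H, sgn_apply] at h1
      simp only [Function.update_self, if_true, Real.norm_eq_abs] at h1
      rw [Real.norm_eq_abs, abs_of_nonneg ht]
      rw [abs_of_nonneg (by linarith)] at h1
      linarith
    · push Not at ht
      have h1 := (h + sgn γ).norm_coe_le_norm (Function.update t γ false)
      rw [ContinuousMap.add_apply, H, sgn_apply] at h1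
      simp only [Function.update_self, Bool.false_eq_true, if_false, Real.norm_eq_abs] at h1
      rw [Real.norm_eq_abs, abs_of_neg ht]
      rw [abs_of_neg (by linarith)] at h1
      linarith
  linarith

/-- The algebra generated by the coordinate signs. -/
noncomputable def Alg : Subalgebra ℝ C(Cube, ℝ) := Algebra.adjoin ℝ (range sgn)

lemma Alg_separates : Alg.SeparatesPoints := by
  intro x y hxy
  obtain ⟨γ, hγ⟩ := Function.ne_iff.mp hxy
  refine ⟨sgn γ, ⟨sgn γ, Algebra.subset_adjoin ⟨γ, rfl⟩, rfl⟩, ?_⟩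
  rw [sgn_apply, sgn_apply]
  revert hγ
  cases x γ <;> cases y γ <;> norm_num

lemma exists_seq (h : C(Cube, ℝ)) :
    ∃ a : ℕ → Alg, Tendsto (fun n => (a n : C(Cube, ℝ))) atTop (𝓝 h) := by
  have h1 := ContinuousMap.continuousMap_mem_subalgebra_closure_of_separatesPoints Alg
    Alg_separates h
  have h2 : h ∈ closure (Alg : Set C(Cube, ℝ)) := h1
  obtain ⟨a, ha, hlim⟩ := mem_closure_iff_seq_limit.mp h2
  exact ⟨fun n => ⟨a n, ha n⟩, hlim⟩

lemma countable_dep_of_mem {h : C(Cube, ℝ)} (hh : h ∈ Alg) : {γ | ¬ Indep h γ}.Countable := by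
  induction hh using Algebra.adjoin_induction with
  | mem x hx =>
    obtain ⟨δ, rfl⟩ := hx
    refine (countable_singleton δ).mono ?_
    intro γ hγ
    by_contra hne
    apply hγ
    intro t b
    have hne' : δ ≠ γ := fun e => hne (by simp [e])
    rw [sgn_apply, sgn_apply, Function.update_of_ne hne']
  | algebraMap r =>
    refine countable_empty.mono ?_
    intro γ hγ
    apply hγ
    intro t b
    simp
  | add x y _ _ hx hy =>
    refine (hx.union hy).mono ?_
    intro γ hγ
    by_contra hne
    simp only [mem_union, mem_ofPred_eq, not_or, not_not] at hne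
    apply hγ
    intro t b
    rw [ContinuousMap.add_apply, ContinuousMap.add_apply, hne.1, hne.2]
  | mul x y _ _ hx hy =>
    refine (hx.union hy).mono ?_
    intro γ hγ
    by_contra hne
    simp only [mem_union, mem_ofPred_eq, not_or, not_not] at hne
    apply hγ
    intro t b
    rw [ContinuousMap.mul_apply, ContinuousMap.mul_apply, hne.1, hne.2]

lemma countable_dep (h : C(Cube, ℝ)) : {γ | ¬ Indep h γ}.Countable := by
  obtain ⟨a, ha⟩ := exists_seq h
  refine (countable_iUnion fun n => countable_dep_of_mem (a n).2).mono ?_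
  intro γ hγ
  by_contra hne
  simp only [mem_iUnion, mem_ofPred_eq, not_exists, not_not] at hne
  apply hγ
  intro t b
  have e1 : Tendsto (fun n => (a n : C(Cube, ℝ)) (Function.update t γ b)) atTop
      (𝓝 (h (Function.update t γ b))) :=
    ((continuous_eval_const (Function.update t γ b)).tendsto h).comp ha
  have e2 : Tendsto (fun n => (a n : C(Cube, ℝ)) t) atTop (𝓝 (h t)) :=
    ((continuous_eval_const t).tendsto h).comp ha
  have e3 : (fun n => (a n : C(Cube, ℝ)) (Function.update t γ b))
      = fun n => (a n : C(Cube, ℝ)) t := funext fun n => hne n t b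
  rw [e3] at e1
  exact tendsto_nhds_unique e1 e2

lemma mk_Alg_le : #Alg ≤ 𝔠 := by
  have h1 := Algebra.cardinalMk_adjoin_le ℝ (range sgn)
  refine h1.trans ?_
  rw [mk_real]
  refine sup_le (sup_le le_rfl ?_) aleph0_le_continuum
  exact mk_range_le.trans mk_real.le

lemma mk_C_le : #C(Cube, ℝ) ≤ 𝔠 := by
  choose a ha using exists_seq
  have hinj : Function.Injective a := by
    intro f g hfg
    have h1 := ha f
    rw [hfg] at h1
    exact tendsto_nhds_unique h1 (ha g)
  refine (mk_le_of_injective hinj).trans ?_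
  rw [← power_def, mk_nat]
  calc #Alg ^ ℵ₀ ≤ 𝔠 ^ ℵ₀ := power_le_power_right mk_Alg_le
    _ = 𝔠 := continuum_power_aleph0

/-- Fewer than continuum many functions have a common coordinate that none depends on. -/
lemma exists_fresh {ι : Type} (hι : #ι < 𝔠) (h : ι → C(Cube, ℝ)) :
    ∃ γ : ℝ, ∀ i, Indep (h i) γ := by
  by_contra hne
  push Not at hne
  have hU : (⋃ i, {γ | ¬ Indep (h i) γ}) = Set.univ := by
    refine eq_univ_of_forall fun γ => ?_
    obtain ⟨i, hi⟩ := hne γ
    exact mem_iUnion.mpr ⟨i, hi⟩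
  have h1 : #(⋃ i, {γ | ¬ Indep (h i) γ} : Set ℝ) ≤ #ι * ℵ₀ := by
    refine (mk_iUnion_le _).trans ?_
    refine mul_le_mul_right ?_ _
    exact ciSup_le' fun i => (countable_dep (h i)).le_aleph0
  rw [hU, mk_univ, mk_real] at h1
  exact absurd h1 (not_le.mpr (mul_lt_of_lt aleph0_le_continuum hι aleph0_lt_continuum))

/-- The index set of the transfinite construction. -/
abbrev Idx : Type := (𝔠 : Cardinal.{0}).ord.ToType

/-- `y` is a good centre at stage `i` given the earlier centres `c`. -/
def Good (s : Idx → C(Cube, ℝ)) (i : Idx) (c : (j : Idx) → j < i → C(Cube, ℝ))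
    (y : C(Cube, ℝ)) : Prop :=
  dist (s i) y ≤ 1 ∧ ∀ j (hj : j < i), c j hj = y ∨ 2 < dist y (c j hj)

open Classical in
/-- The centres. -/
noncomputable def ctr (s : Idx → C(Cube, ℝ)) : Idx → C(Cube, ℝ) :=
  (wellFounded_lt (α := Idx)).fix fun i c => if H : ∃ y, Good s i c y then H.choose else 0

open Classical in
lemma ctr_eq (s : Idx → C(Cube, ℝ)) (i : Idx) :
    ctr s i = if H : ∃ y, Good s i (fun j _ => ctr s j) y then H.choose else 0 := by
  unfold ctr
  rw [WellFounded.fix_eq]

lemma good_ctr (s : Idx → C(Cube, ℝ)) (i : Idx) : Good s i (fun j _ => ctr s j) (ctr s i) := by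
  induction i using (wellFounded_lt (α := Idx)).induction with
  | _ i ih =>
    have H : ∃ y, Good s i (fun j _ => ctr s j) y := by
      by_cases hc : ∃ j, j < i ∧ dist (s i) (ctr s j) ≤ 1
      · obtain ⟨j, hj, hd⟩ := hc
        refine ⟨ctr s j, hd, fun k hk => ?_⟩
        rcases lt_trichotomy k j with hkj | rfl | hjk
        · exact (ih j hj).2 k hkj
        · exact Or.inl rfl
        · rcases (ih k hk).2 j hjk with e | e
          · exact Or.inl e.symm
          · exact Or.inr (by rwa [dist_comm])
      · push Not at hc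
        obtain ⟨γ, hγ⟩ := exists_fresh (ι := Iio i) (mk_Iio_toType_ord_lt i)
          (fun j => s i - ctr s j.1)
        refine ⟨s i + sgn γ, ?_, fun k hk => Or.inr ?_⟩
        · rw [dist_self_add_right]
          exact norm_sgn_le γ
        · have h1 := norm_add_sgn (hγ ⟨k, hk⟩)
          have h2 := hc k hk
          rw [dist_eq_norm] at h2 ⊢
          have e : s i + sgn γ - ctr s k = s i - ctr s k + sgn γ := by abel
          simp only at h1 ⊢
          rw [e]
          linarith
    have := H.choose_spec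
    rw [ctr_eq s i, dif_pos H]
    exact this

/-- There is a set of centres, pairwise more than `2` apart, whose closed unit balls cover. -/
theorem exists_disjoint_cover :
    ∃ S : Set C(Cube, ℝ), (∀ x ∈ S, ∀ y ∈ S, x = y ∨ 2 < dist x y) ∧
      ∀ f : C(Cube, ℝ), ∃ x ∈ S, dist f x ≤ 1 := by
  have hle : #C(Cube, ℝ) ≤ #Idx := by
    rw [mk_ord_toType]
    exact mk_C_le
  obtain ⟨e⟩ := hle
  obtain ⟨s, hs⟩ : ∃ s : Idx → C(Cube, ℝ), Function.Surjective s :=
    ⟨Function.invFun e, Function.invFun_surjective e.injective⟩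
  refine ⟨range (ctr s), ?_, ?_⟩
  · rintro _ ⟨i, rfl⟩ _ ⟨j, rfl⟩
    rcases lt_trichotomy i j with hij | rfl | hji
    · rcases (good_ctr s j).2 i hij with e | e
      · exact Or.inl e
      · exact Or.inr (by rwa [dist_comm])
    · exact Or.inl rfl
    · rcases (good_ctr s i).2 j hji with e | e
      · exact Or.inl e.symm
      · exact Or.inr e
  · intro f
    obtain ⟨i, rfl⟩ := hs f
    exact ⟨ctr s i, ⟨i, rfl⟩, (good_ctr s i).1⟩

end Pool.Agent.P.MP_bf1b21_an
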